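import Pool.Agent.Helper52.Arb.CG

/-! The mixed term of a sum of two pairs -/

namespace Pool.Agent.Helper52.Arb

open Pool.Agent.Helper37.Arb

/-- the combined inequality `sh1`, `sh2` for all integers -/
def FF (a b : ℤ → ℝ) (u v : ℤ) : ℝ :=
  ((u - v : ℤ) : ℝ) * (a u * b v - a (u + 1) * b (v - 1)) + (a u * b v - a v * b u)

theorem FF_nonneg {a b : ℤ → ℝ}
    (h1 : ∀ u v : ℤ, v ≤ u →
      0 ≤ ((u - v : ℤ) : ℝ) * al a b u v + ((u - v + 1 : ℤ) : ℝ) * be a b (u - 1) v)
    (h2 : ∀ u v : ℤ, v ≤ u →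
      0 ≤ ((u - v + 2 : ℤ) : ℝ) * al a b u v + ((u - v + 1 : ℤ) : ℝ) * be a b u (v - 1))
    (u v : ℤ) : 0 ≤ FF a b u v := by
  rcases le_or_gt v u with h | h
  · have := h1 u v h
    unfold al be at this
    unfold FF
    rw [show u - 1 + 1 = u by ring] at this
    push_cast at this ⊢
    linarith
  · rcases eq_or_lt_of_le (show u + 1 ≤ v by omega) with h' | h'
    · subst h'
      unfold FF
      rw [show u + 1 - 1 = u by ring]
      push_cast
      apply le_of_eq
      ring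
    · have := h2 (v - 1) (u + 1) (by omega)
      unfold al be at this
      unfold FF
      rw [show v - 1 + 1 = v by ring, show u + 1 - 1 = u by ring] at this
      push_cast at this ⊢
      linarith

theorem pointwise (m d₁ d₂ c₁ c₂ : ℝ) (h0 : m = 0 → c₁ = 0 ∧ c₂ = 0)
    (h1 : m = -1 → d₁ = c₁ ∧ d₂ = c₂) :
    d₁ * d₂ = (m * d₁ + c₁) * (m * d₂ + c₂) / (m * (m + 1)) - c₁ * c₂ / m +
      (d₁ - c₁) * (d₂ - c₂) / (m + 1) := by
  by_cases hm : m = 0
  · obtain ⟨h2, h3⟩ := h0 hm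
    subst hm h2 h3
    simp
  · by_cases hm' : m = -1
    · obtain ⟨h2, h3⟩ := h1 hm'
      subst hm' h2 h3
      simp
      ring
    · have hm'' : m + 1 ≠ 0 := fun h => hm' (by linarith)
      field_simp
      ring

theorem cross {K : ℕ} {a₁ b₁ a₂ b₂ : ℤ → ℝ} (ha : VB K a₁) (hb : VB K b₁)
    (h₁ : ∀ u v, 0 ≤ FF a₁ b₁ u v) (h₂ : ∀ u v, 0 ≤ FF a₂ b₂ u v) (s : ℤ) :
    conv a₁ b₂ (s + 1) * conv b₁ a₂ (s - 1) + conv a₁ b₂ (s - 1) * conv b₁ a₂ (s + 1) ≤
      2 * (conv a₁ b₂ s * conv b₁ a₂ s) := by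
  have e1 := conv_eq ha b₂ s 0 (by norm_num) (by norm_num)
  have e2 := conv_eq hb a₂ s 0 (by norm_num) (by norm_num)
  have e3 := conv_eq ha b₂ s 1 (by norm_num) (by norm_num)
  have e4 := conv_eq hb a₂ s (-1) (by norm_num) (by norm_num)
  have e5 := conv_eq ha b₂ (s - 1) 0 (by norm_num) (by norm_num)
  have e6 := conv_eq hb a₂ (s + 1) 0 (by norm_num) (by norm_num)
  have e7 := conv_eq ha b₂ (s + 1) 1 (by norm_num) (by norm_num)
  have e8 := conv_eq hb a₂ (s - 1) (-1) (by norm_num) (by norm_num)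
  set δ₁ : ℤ → ℤ → ℝ := fun I J => a₁ I * b₁ J - a₁ (I + 1) * b₁ (J - 1) with hδ₁
  set δ₂ : ℤ → ℤ → ℝ := fun I J => a₂ (s - J) * b₂ (s - I) - a₂ (s - J + 1) * b₂ (s - I - 1)
    with hδ₂
  set β : ℤ → ℤ → ℝ := fun I J => (a₁ I * b₁ J - a₁ J * b₁ I) *
    (a₂ (s - J) * b₂ (s - I) - a₂ (s - I) * b₂ (s - J)) with hβ
  set α : ℤ → ℤ → ℝ := fun I J => (a₁ J * b₁ I - a₁ (I + 1) * b₁ (J - 1)) *
    (a₂ (s - I) * b₂ (s - J) - a₂ (s - J + 1) * b₂ (s - I - 1)) with hα
  have step1 : 2 * (conv a₁ b₂ s * conv b₁ a₂ s) - conv a₁ b₂ (s + 1) * conv b₁ a₂ (s - 1) -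
      conv a₁ b₂ (s - 1) * conv b₁ a₂ (s + 1) = S K fun I J => δ₁ I J * δ₂ I J := by
    have t1 : 2 * (conv a₁ b₂ s * conv b₁ a₂ s) - conv a₁ b₂ (s + 1) * conv b₁ a₂ (s - 1) -
        conv a₁ b₂ (s - 1) * conv b₁ a₂ (s + 1) =
        (conv a₁ b₂ s * conv b₁ a₂ s + conv a₁ b₂ s * conv b₁ a₂ s) -
        conv a₁ b₂ (s + 1) * conv b₁ a₂ (s - 1) -
        conv a₁ b₂ (s - 1) * conv b₁ a₂ (s + 1) := by ring
    rw [t1]
    have t2 : conv a₁ b₂ s * conv b₁ a₂ s = S K fun I J =>
        a₁ I * b₂ (s - I) * (b₁ J * a₂ (s - J)) := by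
      rw [e1, e2, mul_S]
      refine S_congr fun I J => ?_
      simp only [add_zero, sub_zero]
    have t3 : conv a₁ b₂ s * conv b₁ a₂ s = S K fun I J =>
        a₁ (I + 1) * b₂ (s - I - 1) * (b₁ (J - 1) * a₂ (s - J + 1)) := by
      rw [e3, e4, mul_S]
      refine S_congr fun I J => ?_
      rw [show J + -1 = J - 1 by ring, show s - J - -1 = s - J + 1 by ring]
    have t4 : conv a₁ b₂ (s + 1) * conv b₁ a₂ (s - 1) = S K fun I J =>
        a₁ (I + 1) * b₂ (s - I) * (b₁ (J - 1) * a₂ (s - J)) := by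
      rw [e7, e8, mul_S]
      refine S_congr fun I J => ?_
      rw [show J + -1 = J - 1 by ring, show s - 1 - J - -1 = s - J by ring,
        show s + 1 - I - 1 = s - I by ring]
    have t5 : conv a₁ b₂ (s - 1) * conv b₁ a₂ (s + 1) = S K fun I J =>
        a₁ I * b₂ (s - I - 1) * (b₁ J * a₂ (s - J + 1)) := by
      rw [e5, e6, mul_S]
      refine S_congr fun I J => ?_
      simp only [add_zero, sub_zero]
      rw [show s + 1 - J = s - J + 1 by ring, show s - 1 - I = s - I - 1 by ring]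
    nth_rewrite 1 [t2]
    rw [t3, t4, t5, ← S_add, ← S_sub, ← S_sub]
    refine S_congr fun I J => ?_
    simp only [hδ₁, hδ₂]
    ring
  have stepβ : (S K fun I J => β I J / ((I - J : ℤ) : ℝ)) = 0 := by
    have t1 := S_swap (K := K) fun I J => β I J / ((I - J : ℤ) : ℝ)
    have t2 : (S K fun I J => β J I / ((J - I : ℤ) : ℝ)) =
        -(S K fun I J => β I J / ((I - J : ℤ) : ℝ)) := by
      have t3 : (S K fun I J => β J I / ((J - I : ℤ) : ℝ)) =
          S K fun I J => (-1) * (β I J / ((I - J : ℤ) : ℝ)) := by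
        refine S_congr fun I J => ?_
        have t4 : ((J - I : ℤ) : ℝ) = -((I - J : ℤ) : ℝ) := by push_cast; ring
        rw [t4, div_neg]
        have t5 : β J I = β I J := by simp only [hβ]; ring
        rw [t5]
        ring
      rw [t3]
      unfold S
      simp only [← Finset.mul_sum]
      ring
    linarith
  have stepα : (S K fun I J => α I J / ((I - J + 1 : ℤ) : ℝ)) = 0 := by
    have t1 := S_swap (K := K) fun I J => α I J / ((I - J + 1 : ℤ) : ℝ)
    have t2 := S_shift (K := K) (c := 1) (d := -1) (by norm_num) (by norm_num) (by norm_num)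
      (by norm_num) (φ := fun I J => α J I / ((J - I + 1 : ℤ) : ℝ)) (by
        intro J t ht
        simp only [hα]
        rw [ha t (by omega), hb (t - 1) (by omega)]
        simp) (by
        intro I t ht
        simp only [hα]
        rw [hb t (by omega), ha (t + 1) (by omega)]
        simp)
    have t3 : (S K fun I J => α (J + -1) (I + 1) / ((J + -1 - (I + 1) + 1 : ℤ) : ℝ)) =
        -(S K fun I J => α I J / ((I - J + 1 : ℤ) : ℝ)) := by
      have t4 : (S K fun I J => α (J + -1) (I + 1) / ((J + -1 - (I + 1) + 1 : ℤ) : ℝ)) =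
          S K fun I J => (-1) * (α I J / ((I - J + 1 : ℤ) : ℝ)) := by
        refine S_congr fun I J => ?_
        have t5 : ((J + -1 - (I + 1) + 1 : ℤ) : ℝ) = -((I - J + 1 : ℤ) : ℝ) := by
          push_cast; ring
        rw [t5, div_neg]
        have t6 : α (J + -1) (I + 1) = α I J := by
          simp only [hα]
          rw [show J + -1 + 1 = J by ring, show I + 1 - 1 = I by ring,
            show J + -1 = J - 1 by ring, show s - (J - 1) = s - J + 1 by ring,
            show s - (I + 1) = s - I - 1 by ring, show s - I - 1 + 1 = s - I by ring,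
            show s - J + 1 - 1 = s - J by ring]
          ring
        rw [t6]
        ring
      rw [t4]
      unfold S
      simp only [← Finset.mul_sum]
      ring
    linarith
  have step2 : (S K fun I J => δ₁ I J * δ₂ I J) =
      (S K fun I J => FF a₁ b₁ I J * FF a₂ b₂ (s - J) (s - I) /
        (((I - J : ℤ) : ℝ) * (((I - J : ℤ) : ℝ) + 1))) -
      (S K fun I J => β I J / ((I - J : ℤ) : ℝ)) +
      S K fun I J => α I J / ((I - J + 1 : ℤ) : ℝ) := by
    rw [← S_sub, ← S_add]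
    refine S_congr fun I J => ?_
    have h3 := pointwise ((I - J : ℤ) : ℝ) (δ₁ I J) (δ₂ I J) (a₁ I * b₁ J - a₁ J * b₁ I)
      (a₂ (s - J) * b₂ (s - I) - a₂ (s - I) * b₂ (s - J)) (by
        intro h
        have h' : I - J = 0 := by exact_mod_cast h
        have h'' : I = J := by omega
        subst h''
        exact ⟨by ring, by ring⟩) (by
        intro h
        have h' : I - J = -1 := by exact_mod_cast h
        have h'' : J = I + 1 := by omega
        subst h''
        simp only [hδ₁, hδ₂]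
        rw [show I + 1 - 1 = I by ring, show s - (I + 1) + 1 = s - I by ring,
          show s - I - 1 = s - (I + 1) by ring]
        exact ⟨by ring, by ring⟩)
    rw [h3]
    have h4 : FF a₁ b₁ I J = ((I - J : ℤ) : ℝ) * δ₁ I J + (a₁ I * b₁ J - a₁ J * b₁ I) := rfl
    have h5 : FF a₂ b₂ (s - J) (s - I) = ((I - J : ℤ) : ℝ) * δ₂ I J +
        (a₂ (s - J) * b₂ (s - I) - a₂ (s - I) * b₂ (s - J)) := by
      unfold FF
      rw [show s - J - (s - I) = I - J by ring]
    rw [h4, h5]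
    have h6 : α I J = (δ₁ I J - (a₁ I * b₁ J - a₁ J * b₁ I)) *
        (δ₂ I J - (a₂ (s - J) * b₂ (s - I) - a₂ (s - I) * b₂ (s - J))) := by
      simp only [hα, hδ₁, hδ₂]
      ring
    rw [h6]
    push_cast
    simp only [hβ]
  have step3 : 0 ≤ S K fun I J => FF a₁ b₁ I J * FF a₂ b₂ (s - J) (s - I) /
      (((I - J : ℤ) : ℝ) * (((I - J : ℤ) : ℝ) + 1)) := by
    refine S_nonneg fun I J => div_nonneg (mul_nonneg (h₁ _ _) (h₂ _ _)) ?_
    rcases le_or_gt 0 (I - J) with h | h
    · have : (0 : ℝ) ≤ ((I - J : ℤ) : ℝ) := by exact_mod_cast h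
      positivity
    · have : ((I - J : ℤ) : ℝ) + 1 ≤ 0 := by exact_mod_cast (by omega : I - J + 1 ≤ 0)
      nlinarith
  linarith

end Pool.Agent.Helper52.Arb
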