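import Pool.Agent.Helper52.Arb.P1
import Pool.Agent.Helper52.Arb.Cross
import Pool.Agent.Helper32.Arb.Gsum
import Pool.Agent.Helper37.Arb.Assemble

/-! GSUM: the sum of two good pairs is good -/

namespace Pool.Agent.Helper52.Arb

open Pool.Agent.Helper37.Arb
open Pool.Agent.Helper32.Arb (fin_supp conv_nonneg conv_zero conv_pos conv_symm conv_comm)

section arrays

variable {K : ℕ} {a b w : ℤ → ℝ}

theorem box_al (ha : VB K a) (hb : VB K b) : Box K (al a b) := by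
  intro p q h
  unfold al
  rcases h with h | h | h | h
  · rw [hb p (by omega), ha (p + 1) (by omega)]; ring
  · rw [hb p (by omega), ha (p + 1) (by omega)]; ring
  · rw [ha q (by omega), hb (q - 1) (by omega)]; ring
  · rw [ha q (by omega), hb (q - 1) (by omega)]; ring

theorem box_be (ha : VB K a) (hb : VB K b) : Box K (be a b) := by
  intro p q h
  unfold be
  rcases h with h | h | h | h
  · rw [ha (p + 1) (by omega), hb (p + 1) (by omega)]; ring
  · rw [ha (p + 1) (by omega), hb (p + 1) (by omega)]; ring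
  · rw [ha q (by omega), hb q (by omega)]; ring
  · rw [ha q (by omega), hb q (by omega)]; ring

theorem box_bt (hb : VB K b) : Box K (bt b) := by
  intro p q h
  unfold bt
  rcases h with h | h | h | h
  · rw [hb p (by omega), hb (p + 1) (by omega)]; ring
  · rw [hb p (by omega), hb (p + 1) (by omega)]; ring
  · rw [hb q (by omega), hb (q - 1) (by omega)]; ring
  · rw [hb q (by omega), hb (q - 1) (by omega)]; ring

theorem anti_al (a b : ℤ → ℝ) : Anti (al a b) := by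
  intro p q
  unfold al
  rw [show q - 1 + 1 = q by ring, show p + 1 - 1 = p by ring]
  ring

theorem anti_be (a b : ℤ → ℝ) : Anti (be a b) := by
  intro p q
  unfold be
  rw [show q - 1 + 1 = q by ring]
  ring

theorem al_conv (ha : VB K a) (hb : VB K b) (w : ℤ → ℝ) (u v : ℤ) :
    al (conv a w) (conv b w) u v = S K fun p q => w (u - p) * w (v - q) * al a b p q := by
  unfold al
  rw [conv_eq hb w u 0 (by norm_num) (by norm_num), conv_eq ha w v 0 (by norm_num) (by norm_num),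
    conv_eq ha w (u + 1) 1 (by norm_num) (by norm_num),
    conv_eq hb w (v - 1) (-1) (by norm_num) (by norm_num), mul_S, mul_S, ← S_sub]
  refine S_congr fun p q => ?_
  simp only [add_zero, sub_zero]
  rw [show u + 1 - p - 1 = u - p by ring, show v - 1 - q - -1 = v - q by ring,
    show q + -1 = q - 1 by ring]
  ring

theorem be_conv (ha : VB K a) (hb : VB K b) (w : ℤ → ℝ) (u v : ℤ) :
    be (conv a w) (conv b w) u v = S K fun p q => w (u - p) * w (v - q) * be a b p q := by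
  unfold be
  rw [conv_eq ha w (u + 1) 1 (by norm_num) (by norm_num),
    conv_eq hb w v 0 (by norm_num) (by norm_num), conv_eq ha w v 0 (by norm_num) (by norm_num),
    conv_eq hb w (u + 1) 1 (by norm_num) (by norm_num), mul_S, mul_comm (∑ i ∈ E K, a (i + 0) * _),
    mul_S, ← S_sub]
  refine S_congr fun p q => ?_
  simp only [add_zero, sub_zero]
  rw [show u + 1 - p - 1 = u - p by ring]
  ring

end arrays

theorem p1_sh1 {K : ℕ} {a b w : ℤ → ℝ} (ha : VB K a) (hb : VB K b)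
    (hw : ∀ u v, v ≤ u → 0 ≤ bt w u v)
    (h1 : ∀ u v : ℤ, v ≤ u →
      0 ≤ ((u - v : ℤ) : ℝ) * al a b u v + ((u - v + 1 : ℤ) : ℝ) * be a b (u - 1) v)
    (h2 : ∀ u v : ℤ, v ≤ u →
      0 ≤ ((u - v + 2 : ℤ) : ℝ) * al a b u v + ((u - v + 1 : ℤ) : ℝ) * be a b u (v - 1))
    (u v : ℤ) (huv : v ≤ u) :
    0 ≤ ((u - v : ℤ) : ℝ) * al (conv a w) (conv b w) u v +
      ((u - v + 1 : ℤ) : ℝ) * be (conv a w) (conv b w) (u - 1) v := by
  rcases eq_or_lt_of_le huv with h | h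
  · subst h
    have := (anti_be (conv a w) (conv b w)).off v
    rw [this]
    simp
  · obtain ⟨l, hl⟩ : ∃ l : ℕ, u = v + l + 1 := ⟨(u - v - 1).toNat, by omega⟩
    have := p1_core K l w (al a b) (be a b) (box_al ha hb) (anti_al a b) (box_be ha hb)
      (anti_be a b) hw h1 h2 u v hl
    rw [al_conv ha hb, be_conv ha hb, show u - v = ((l + 1 : ℕ) : ℤ) by push_cast; omega]
    push_cast
    rw [show (l : ℝ) + 1 + 1 = l + 2 by ring]
    exact this

theorem p1_sh2 {K : ℕ} {a b w : ℤ → ℝ} (ha : VB K a) (hb : VB K b)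
    (hw : ∀ u v, v ≤ u → 0 ≤ bt w u v)
    (h1 : ∀ u v : ℤ, v ≤ u →
      0 ≤ ((u - v : ℤ) : ℝ) * al a b u v + ((u - v + 1 : ℤ) : ℝ) * be a b (u - 1) v)
    (h2 : ∀ u v : ℤ, v ≤ u →
      0 ≤ ((u - v + 2 : ℤ) : ℝ) * al a b u v + ((u - v + 1 : ℤ) : ℝ) * be a b u (v - 1))
    (u v : ℤ) (huv : v ≤ u) :
    0 ≤ ((u - v + 2 : ℤ) : ℝ) * al (conv a w) (conv b w) u v +
      ((u - v + 1 : ℤ) : ℝ) * be (conv a w) (conv b w) u (v - 1) := by
  obtain ⟨l, hl⟩ : ∃ l : ℕ, u = v + l := ⟨(u - v).toNat, by omega⟩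
  have ha' : VB ((K + 1 : ℕ) : ℤ) a := ha.mono (by push_cast; omega)
  have hb' : VB ((K + 1 : ℕ) : ℤ) b := hb.mono (by push_cast; omega)
  have := p1_core (K + 1) l w (fun p q => be a b (p - 1) (q - 1)) (al a b)
    (by
      intro p q h
      exact box_be ha hb _ _ (by push_cast at h; omega))
    (by
      intro p q
      have := anti_be a b (p - 1) (q - 1)
      rw [show p - 1 + 1 = p by ring] at this
      show be a b (q - 1 - 1) (p + 1 - 1) = _
      rw [show p + 1 - 1 = p by ring]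
      exact this)
    (box_al ha' hb') (anti_al a b) hw
    (by
      intro u v h
      rcases eq_or_lt_of_le h with h | h
      · subst h
        rw [(anti_al a b).off]
        simp
      · have := h2 (u - 1) v (by omega)
        rw [show u - 1 - v + 2 = u - v + 1 by ring, show u - 1 - v + 1 = u - v by ring] at this
        linarith)
    (by
      intro u v h
      have := h1 u (v - 1) (by omega)
      rw [show u - (v - 1) = u - v + 1 by ring, show u - v + 1 + 1 = u - v + 2 by ring] at this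
      linarith)
    (u + 1) v (by omega)
  have e1 : (S ((K + 1 : ℕ) : ℤ) fun p q => w (u + 1 - p) * w (v - q) * be a b (p - 1) (q - 1)) =
      be (conv a w) (conv b w) u (v - 1) := by
    rw [be_conv ha' hb']
    rw [← S_shift (c := -1) (d := -1) (by norm_num) (by norm_num) (by norm_num) (by norm_num)
      (φ := fun p q => w (u - p) * w (v - 1 - q) * be a b p q)]
    · refine S_congr fun p q => ?_
      rw [show u - (p + -1) = u + 1 - p by ring, show v - 1 - (q + -1) = v - q by ring,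
        show p + -1 = p - 1 by ring, show q + -1 = q - 1 by ring]
    · intro q s hs
      simp only
      rw [box_be ha' hb' s q (by omega)]
      ring
    · intro p s hs
      simp only
      rw [box_be ha' hb' p s (by omega)]
      ring
  have e2 : (S ((K + 1 : ℕ) : ℤ) fun p q => w (u + 1 - 1 - p) * w (v - q) * al a b p q) =
      al (conv a w) (conv b w) u v := by
    rw [al_conv ha' hb']
    refine S_congr fun p q => ?_
    rw [show u + 1 - 1 - p = u - p by ring]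
  rw [e1, e2] at this
  rw [show u - v = (l : ℤ) by omega]
  push_cast
  linarith

theorem lci_a {N k k' : ℤ} {a b : ℤ → ℝ} (h : GoodG N k k' a b) : LCI a :=
  ⟨k', N - k', h.a0, h.a1, h.la⟩

theorem lci_b {N k k' : ℤ} {a b : ℤ → ℝ} (h : GoodG N k k' a b) : LCI b :=
  ⟨k, N - 1 - k, h.b0, h.b1, h.lb⟩

theorem bt_nonneg {b : ℤ → ℝ} (h : LCI b) (u v : ℤ) (huv : v ≤ u) : 0 ≤ bt b u v := by
  unfold bt
  linarith [h.nested u v huv]

theorem exists_VB' {f : ℤ → ℝ} (hf : (Function.support f).Finite) : ∃ K : ℕ, VB K f := by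
  obtain ⟨K, hK, h⟩ := exists_VB hf
  exact ⟨K.toNat, h.mono (by omega)⟩

theorem exists_VB2 {f g : ℤ → ℝ} (hf : (Function.support f).Finite)
    (hg : (Function.support g).Finite) : ∃ K : ℕ, VB K f ∧ VB K g := by
  obtain ⟨K, h⟩ := exists_VB' hf
  obtain ⟨K', h'⟩ := exists_VB' hg
  exact ⟨max K K', h.mono (by exact_mod_cast le_max_left K K'),
    h'.mono (by exact_mod_cast le_max_right K K')⟩

theorem gSum (hCB : GoalCB) : GoalGSum := by
  intro N₁ k₁ k₁' N₂ k₂ k₂' a₁ b₁ a₂ b₂ h₁ h₂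
  have hk₁ := h₁.hk
  have hk₂ := h₂.hk
  have ne₁ := h₁.ne
  have ne₂ := h₂.ne
  have ne₁' := h₁.ne'
  have ne₂' := h₂.ne'
  have la₁ := lci_a h₁
  have lb₁ := lci_b h₁
  have la₂ := lci_a h₂
  have lb₂ := lci_b h₂
  have fa₁ := fin_supp h₁.a0
  have fb₁ := fin_supp h₁.b0
  have fa₂ := fin_supp h₂.a0
  have fb₂ := fin_supp h₂.b0
  have xa₁ : ∃ s, a₁ s ≠ 0 := ⟨k₁', (h₁.a1 k₁' le_rfl ne₁').ne'⟩
  have xb₁ : ∃ s, b₁ s ≠ 0 := ⟨k₁, (h₁.b1 k₁ le_rfl ne₁).ne'⟩
  have xa₂ : ∃ s, a₂ s ≠ 0 := ⟨k₂', (h₂.a1 k₂' le_rfl ne₂').ne'⟩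
  have xb₂ : ∃ s, b₂ s ≠ 0 := ⟨k₂, (h₂.b1 k₂ le_rfl ne₂).ne'⟩
  have l12 : LCI (conv a₁ b₂) := LCI.conv hCB la₁ lb₂ xa₁ xb₂ fa₁ fb₂
  have l21 : LCI (conv b₁ a₂) := LCI.conv hCB lb₁ la₂ xb₁ xa₂ fb₁ fa₂
  have lbb : LCI (conv b₁ b₂) := LCI.conv hCB lb₁ lb₂ xb₁ xb₂ fb₁ fb₂
  obtain ⟨K₁, va₁, vb₁⟩ := exists_VB2 fa₁ fb₁
  obtain ⟨K₂, va₂, vb₂⟩ := exists_VB2 fa₂ fb₂
  have n1 : ∀ v, 0 ≤ conv a₁ b₂ v := l12.nonneg
  have n2 : ∀ v, 0 ≤ conv b₁ a₂ v := l21.nonneg
  have P1 : ∀ v, k₁' + k₂ ≤ v → v ≤ (N₁ - k₁') + (N₂ - 1 - k₂) → 0 < conv a₁ b₂ v :=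
    fun v ↦ conv_pos h₁.a0 h₁.a1 lb₂.nonneg h₂.b1 ne₁' ne₂ v
  have P2 : ∀ v, k₁ + k₂' ≤ v → v ≤ (N₁ - 1 - k₁) + (N₂ - k₂') → 0 < conv b₁ a₂ v :=
    fun v ↦ conv_pos h₁.b0 h₁.b1 la₂.nonneg h₂.a1 ne₁ ne₂' v
  have P3 : ∀ v, k₁ + k₂ ≤ v → v ≤ (N₁ - 1 - k₁) + (N₂ - 1 - k₂) → 0 < conv b₁ b₂ v :=
    fun v ↦ conv_pos h₁.b0 h₁.b1 lb₂.nonneg h₂.b1 ne₁ ne₂ v
  refine ⟨min (k₁' + k₂) (k₁ + k₂'), by omega, by omega, by omega, ?_, ?_, ?_, ?_, ?_, ?_, ?_,
    ?_, ?_, ?_⟩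
  · intro s hs
    rw [Pi.add_apply, conv_zero h₁.a0 h₂.b0 s (by omega), conv_zero h₁.b0 h₂.a0 s (by omega),
      add_zero]
  · intro s h1 h2
    rw [Pi.add_apply]
    rcases le_total (k₁' + k₂) (k₁ + k₂') with h | h
    · exact add_pos_of_pos_of_nonneg (P1 s (by omega) (by omega)) (n2 s)
    · exact add_pos_of_nonneg_of_pos (n1 s) (P2 s (by omega) (by omega))
  · intro s hs
    exact conv_zero h₁.b0 h₂.b0 s (by omega)
  · intro s h1 h2
    exact P3 s (by omega) (by omega)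
  · intro s
    rw [Pi.add_apply, Pi.add_apply, ← conv_symm h₁.pa h₂.pb s, ← conv_symm h₁.pb h₂.pa s]
    congr 2 <;> ring
  · intro s
    rw [← conv_symm h₁.pb h₂.pb s]
    congr 1
    ring
  · intro s
    have c := cross va₁ vb₁ (FF_nonneg h₁.sh1 h₁.sh2) (FF_nonneg h₂.sh1 h₂.sh2) s
    have i1 := l12.nested s s le_rfl
    have i2 := l21.nested s s le_rfl
    simp only [Pi.add_apply]
    nlinarith
  · obtain ⟨_, _, _, _, h⟩ := lbb
    exact h
  · intro u v huv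
    have i1 := p1_sh1 va₁ vb₁ (bt_nonneg lb₂) h₁.sh1 h₁.sh2 u v huv
    have i2 := p1_sh1 va₂ vb₂ (bt_nonneg lb₁) h₂.sh1 h₂.sh2 u v huv
    rw [conv_comm a₂ b₁, conv_comm b₂ b₁] at i2
    have e1 : al (conv a₁ b₂ + conv b₁ a₂) (conv b₁ b₂) u v =
        al (conv a₁ b₂) (conv b₁ b₂) u v + al (conv b₁ a₂) (conv b₁ b₂) u v := by
      unfold al
      simp only [Pi.add_apply]
      ring
    have e2 : be (conv a₁ b₂ + conv b₁ a₂) (conv b₁ b₂) (u - 1) v =
        be (conv a₁ b₂) (conv b₁ b₂) (u - 1) v + be (conv b₁ a₂) (conv b₁ b₂) (u - 1) v := by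
      unfold be
      simp only [Pi.add_apply]
      ring
    rw [e1, e2]
    linarith
  · intro u v huv
    have i1 := p1_sh2 va₁ vb₁ (bt_nonneg lb₂) h₁.sh1 h₁.sh2 u v huv
    have i2 := p1_sh2 va₂ vb₂ (bt_nonneg lb₁) h₂.sh1 h₂.sh2 u v huv
    rw [conv_comm a₂ b₁, conv_comm b₂ b₁] at i2
    have e1 : al (conv a₁ b₂ + conv b₁ a₂) (conv b₁ b₂) u v =
        al (conv a₁ b₂) (conv b₁ b₂) u v + al (conv b₁ a₂) (conv b₁ b₂) u v := by
      unfold al
      simp only [Pi.add_apply]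
      ring
    have e2 : be (conv a₁ b₂ + conv b₁ a₂) (conv b₁ b₂) u (v - 1) =
        be (conv a₁ b₂) (conv b₁ b₂) u (v - 1) + be (conv b₁ a₂) (conv b₁ b₂) u (v - 1) := by
      unfold be
      simp only [Pi.add_apply]
      ring
    rw [e1, e2]
    linarith

end Pool.Agent.Helper52.Arb
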