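import Pool.Agent.Helper52.Arb.Clos
import Pool.Agent.Helper52.Arb.Gsum
import Pool.Agent.Helper37.Arb.Final

/-! CLOSPAIR: two small parallel tangles side by side give a good pair -/

namespace Pool.Agent.Helper52.Arb

open Pool.Agent.Helper37.Arb
open Pool.Agent.Helper32.Arb (fin_supp conv_nonneg conv_zero conv_pos conv_symm conv_comm)

/-- exchange of the two factors -/
theorem mirror {K l : ℕ} {b : ℤ → ℝ} (hb : VB K b) {Q : ℤ → ℤ → ℝ} (hQ : Box K Q) (u v : ℤ)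
    (huv : u = v + l) :
    TS K (l + 1) (fun q n k => bt b (u - q - k) (v - q - n) * Q (q + k + n) q) =
      TS K (l + 1) (fun q n k => Q (u - q - k) (v - q - n) * bt b (q + k + n) q) := by
  rw [← TS_mirror (K := K) (l := l) (v := v)]
  · refine TS_congr fun q n k hk => ?_
    rw [show ((l - k : ℕ) : ℤ) = (l : ℤ) - k by omega,
      show u - (v - q - n) - ((l : ℤ) - k) = q + k + n by omega,
      show v - (v - q - (n : ℤ)) - n = q by ring,
      show v - q - (n : ℤ) + ((l : ℤ) - k) + n = u - q - k by omega]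
    ring
  · intro q n k h
    rw [hQ _ q (by omega)]
    ring
  · intro q n k h
    rw [box_bt hb _ (v - q - n) (by omega)]
    ring

/-- the pair of two tangles side by side -/
theorem al_clos {K l : ℕ} {b₁ b₂ R₁ L₂ : ℤ → ℝ} (hb₁ : VB K b₁) (hb₂ : VB K b₂) (hR₁ : VB K R₁)
    (hL₂ : VB K L₂) (u v : ℤ) (huv : u = v + l) :
    al (conv R₁ b₂ + conv b₁ L₂) (conv b₁ b₂) u v =
      TS K (l + 1) (fun q n k => al R₁ b₁ (u - q - k) (v - q - n) * bt b₂ (q + k + n) q +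
        bt b₁ (u - q - k) (v - q - n) * al L₂ b₂ (q + k + n) q) := by
  have e1 : al (conv R₁ b₂ + conv b₁ L₂) (conv b₁ b₂) u v =
      al (conv R₁ b₂) (conv b₁ b₂) u v + al (conv L₂ b₁) (conv b₂ b₁) u v := by
    rw [conv_comm L₂ b₁, conv_comm b₂ b₁]
    unfold al
    simp only [Pi.add_apply]
    ring
  rw [e1, al_conv hR₁ hb₁, al_conv hL₂ hb₂,
    cg K l b₂ (al R₁ b₁) (box_al hR₁ hb₁) (anti_al _ _) u v huv,
    cg K l b₁ (al L₂ b₂) (box_al hL₂ hb₂) (anti_al _ _) u v huv,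
    mirror hb₂ (box_al hR₁ hb₁) u v huv, ← TS_add]

theorem be_clos {K l : ℕ} {b₁ b₂ R₁ L₂ : ℤ → ℝ} (hb₁ : VB K b₁) (hb₂ : VB K b₂) (hR₁ : VB K R₁)
    (hL₂ : VB K L₂) (u v : ℤ) (huv : u = v + l) :
    be (conv R₁ b₂ + conv b₁ L₂) (conv b₁ b₂) u v =
      TS K (l + 1) (fun q n k => be R₁ b₁ (u - q - k) (v - q - n) * bt b₂ (q + k + n) q +
        bt b₁ (u - q - k) (v - q - n) * be L₂ b₂ (q + k + n) q) := by
  have e1 : be (conv R₁ b₂ + conv b₁ L₂) (conv b₁ b₂) u v =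
      be (conv R₁ b₂) (conv b₁ b₂) u v + be (conv L₂ b₁) (conv b₂ b₁) u v := by
    rw [conv_comm L₂ b₁, conv_comm b₂ b₁]
    unfold be
    simp only [Pi.add_apply]
    ring
  rw [e1, be_conv hR₁ hb₁, be_conv hL₂ hb₂,
    cg K l b₂ (be R₁ b₁) (box_be hR₁ hb₁) (anti_be _ _) u v huv,
    cg K l b₁ (be L₂ b₂) (box_be hL₂ hb₂) (anti_be _ _) u v huv,
    mirror hb₂ (box_be hR₁ hb₁) u v huv, ← TS_add]

section small

variable {N k : ℤ} {L b : ℤ → ℝ} {K : ℕ}

theorem pos_small (hN1 : GoalNest1) (hN2 : GoalNest2) (h : Good2 N k L b) (hb : VB K b)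
    (hR : VB K fun s => L (N - s)) :
    Pos K (bt b) (al (fun s => b s + L (N - s)) b) (be (fun s => b s + L (N - s)) b) := by
  have ha : VB K fun s => b s + L (N - s) := by
    intro s hs
    show b s + L (N - s) = 0
    have := hR s hs
    simp only at this
    rw [hb s hs, this, add_zero]
  obtain ⟨n1, n2⟩ := hN1 _ _ _ _ _ h.half
  have nn := hN2 N k L b h
  have rel : ∀ s, b s + L (N - s) = b (s - 1) + L s := fun s => by linarith [h.rel s]
  refine ⟨box_bt hb, box_al ha hb, box_be ha hb, ?_, ?_, ?_, ?_, ?_⟩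
  · intro u v huv
    unfold bt
    linarith [n1 u v huv]
  · intro u v huv
    unfold al
    have := n2 v u huv
    simp only at this ⊢
    linarith
  · intro u v huv
    unfold be
    simp only
    have := n2 (N - 1 - u) (N - 1 - v) (by omega)
    have p1 := h.half.pa (v)
    have p2 := h.half.pa (u + 1)
    have q1 := h.half.pb (u + 1)
    have q2 := h.half.pb v
    rw [show N - 1 - v + 1 = N - v by ring, show N - 1 - u - 1 = N - 1 - (u + 1) by ring, p1, q1,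
      show N - 1 - u = N - (u + 1) by ring, p2, q2] at this
    linarith
  · intro u v huv
    have := (nn u v huv).1
    unfold al be bt
    simp only
    rw [show u - 1 + 1 = u by ring, rel (u + 1), show u + 1 - 1 = u by ring, rel v, rel u]
    have h1 := rel u
    ring_nf at this ⊢
    linarith
  · intro u v huv
    have := (nn (N - v) (N - 1 - u) (by omega)).1
    rw [h.half.pb u, show N - 1 - u - 1 = N - 1 - (u + 1) by ring, h.half.pb (u + 1),
      show N - v + 1 = N - (v - 1) by ring] at this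
    unfold al be bt
    simp only
    nlinarith

end small

theorem closPair (hCB : GoalCB) (hN1 : GoalNest1) (hN2 : GoalNest2)
    (hst : ∀ N₁ k₁ N₂ k₂ : ℤ, ∀ L₁ b₁ L₂ b₂ : ℤ → ℝ,
      Good2 N₁ k₁ L₁ b₁ → Good2 N₂ k₂ L₂ b₂ →
      Good2 (N₁ + N₂) (k₁ + k₂) (conv L₁ L₂)
        (conv (fun s => L₁ (N₁ - s)) b₂ + conv b₁ L₂)) : GoalClosPair := by
  intro N₁ k₁ N₂ k₂ L₁ b₁ L₂ b₂ h₁ h₂
  have hs := hst _ _ _ _ _ _ _ _ h₁ h₂
  have ne₁ := h₁.half.ne
  have ne₂ := h₂.half.ne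
  have lb₁ : LCI b₁ := lci_of_good1 hN1 h₁.half
  have lb₂ : LCI b₂ := lci_of_good1 hN1 h₂.half
  have fb₁ := fin_supp h₁.half.b0
  have fb₂ := fin_supp h₂.half.b0
  have xb₁ : ∃ s, b₁ s ≠ 0 := ⟨k₁, (h₁.half.b1 k₁ le_rfl ne₁).ne'⟩
  have xb₂ : ∃ s, b₂ s ≠ 0 := ⟨k₂, (h₂.half.b1 k₂ le_rfl ne₂).ne'⟩
  have lbb : LCI (conv b₁ b₂) := LCI.conv hCB lb₁ lb₂ xb₁ xb₂ fb₁ fb₂
  have Rz : ∀ {N k : ℤ} {L b : ℤ → ℝ}, Good2 N k L b → ∀ s, s < k ∨ N - k < s →
      L (N - s) = 0 := by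
    intro N k L b h s hs
    have e := h.half.a0 s hs
    have e1 := h.half.b0 s (by omega)
    rw [e1, zero_add] at e
    exact e
  have fR₁ : (Function.support fun s => L₁ (N₁ - s)).Finite := fin_supp (Rz h₁)
  have fR₂ : (Function.support fun s => L₂ (N₂ - s)).Finite := fin_supp (Rz h₂)
  have fL₂ : (Function.support L₂).Finite := by
    refine fin_supp (p := k₂) (q := N₂ - k₂) fun s hs => ?_
    have := Rz h₂ (N₂ - s) (by omega)
    rw [show N₂ - (N₂ - s) = s by ring] at this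
    exact this
  obtain ⟨K₁, v1, v2⟩ := exists_VB2 fb₁ fR₁
  obtain ⟨K₂, v3, v4⟩ := exists_VB2 fb₂ fR₂
  obtain ⟨K₃, v5⟩ := exists_VB' fL₂
  set K := max K₁ (max K₂ K₃) with hK
  have i1 : (K₁ : ℤ) ≤ K := by exact_mod_cast le_max_left _ _
  have i2 : (K₂ : ℤ) ≤ K := by exact_mod_cast (le_max_left K₂ K₃).trans (le_max_right _ _)
  have i3 : (K₃ : ℤ) ≤ K := by exact_mod_cast (le_max_right K₂ K₃).trans (le_max_right _ _)
  have vb₁ := v1.mono i1
  have vR₁ := v2.mono i1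
  have vb₂ := v3.mono i2
  have vR₂ := v4.mono i2
  have vL₂ := v5.mono i3
  have p₁ := pos_small hN1 hN2 h₁ vb₁ vR₁
  have p₂ := pos_small hN1 hN2 h₂ vb₂ vR₂
  have rel₂ : ∀ s, b₂ s + L₂ (N₂ - s) = b₂ (s - 1) + L₂ s := fun s => by
    linarith [h₂.rel s]
  have a1 : ∀ p q, al (fun s => L₁ (N₁ - s)) b₁ p q =
      al (fun s => b₁ s + L₁ (N₁ - s)) b₁ p q - bt b₁ p q := by
    intro p q
    unfold al bt
    ring
  have a2 : ∀ p q, al L₂ b₂ p q = al (fun s => b₂ s + L₂ (N₂ - s)) b₂ p q := by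
    intro p q
    unfold al
    simp only
    rw [rel₂ q, rel₂ (p + 1), show p + 1 - 1 = p by ring]
    ring
  have c1 : ∀ p q, be (fun s => L₁ (N₁ - s)) b₁ p q =
      be (fun s => b₁ s + L₁ (N₁ - s)) b₁ p q := by
    intro p q
    unfold be
    ring
  have c2 : ∀ p q, be L₂ b₂ p q = be (fun s => b₂ s + L₂ (N₂ - s)) b₂ p q - bt b₂ p q := by
    intro p q
    unfold be bt
    simp only
    rw [rel₂ q, rel₂ (p + 1), show p + 1 - 1 = p by ring]
    ring
  have aC : ∀ (l : ℕ) (u v : ℤ), u = v + l →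
      al (conv (fun s => L₁ (N₁ - s)) b₂ + conv b₁ L₂) (conv b₁ b₂) u v =
      TS K (l + 1) (fun q n k =>
        al (fun s => b₁ s + L₁ (N₁ - s)) b₁ (u - q - k) (v - q - n) * bt b₂ (q + k + n) q +
        bt b₁ (u - q - k) (v - q - n) * al (fun s => b₂ s + L₂ (N₂ - s)) b₂ (q + k + n) q -
        bt b₁ (u - q - k) (v - q - n) * bt b₂ (q + k + n) q) := by
    intro l u v huv
    rw [al_clos vb₁ vb₂ vR₁ vL₂ u v huv]
    refine TS_congr fun q n k _ => ?_
    rw [a1, a2]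
    ring
  have bC : ∀ (l : ℕ) (u v : ℤ), u = v + l →
      be (conv (fun s => L₁ (N₁ - s)) b₂ + conv b₁ L₂) (conv b₁ b₂) u v =
      TS K (l + 1) (fun q n k =>
        be (fun s => b₁ s + L₁ (N₁ - s)) b₁ (u - q - k) (v - q - n) * bt b₂ (q + k + n) q +
        bt b₁ (u - q - k) (v - q - n) * be (fun s => b₂ s + L₂ (N₂ - s)) b₂ (q + k + n) q -
        bt b₁ (u - q - k) (v - q - n) * bt b₂ (q + k + n) q) := by
    intro l u v huv
    rw [be_clos vb₁ vb₂ vR₁ vL₂ u v huv]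
    refine TS_congr fun q n k _ => ?_
    rw [c1, c2]
    ring
  refine ⟨k₁ + k₂, Or.inl rfl, by omega, by omega, ?_, ?_, ?_, ?_, ?_, ?_, ?_, ?_, ?_, ?_⟩
  · intro s hs'
    exact hs.half.b0 s (by omega)
  · intro s h1 h2
    exact hs.half.b1 s (by omega) (by omega)
  · intro s hs'
    exact conv_zero h₁.half.b0 h₂.half.b0 s (by omega)
  · intro s h1 h2
    exact conv_pos h₁.half.b0 h₁.half.b1 lb₂.nonneg h₂.half.b1 ne₁ ne₂ s (by omega) (by omega)
  · intro s
    exact hs.half.pb s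
  · intro s
    rw [← conv_symm h₁.half.pb h₂.half.pb s]
    congr 1
    ring
  · intro s
    have := (hN1 _ _ _ _ _ hs.half).1 s s le_rfl
    rw [sq]
    exact this
  · obtain ⟨_, _, _, _, h⟩ := lbb
    exact h
  · intro u v huv
    rcases eq_or_lt_of_le huv with h | h
    · subst h
      rw [(anti_be _ _).off]
      simp
    · obtain ⟨l, hl⟩ : ∃ l : ℕ, u = v + l + 1 := ⟨(u - v - 1).toNat, by omega⟩
      rw [aC (l + 1) u v (by push_cast; omega), bC l (u - 1) v (by omega),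
        show u - v = ((l + 1 : ℕ) : ℤ) by push_cast; omega]
      push_cast
      rw [show (l : ℝ) + 1 + 1 = l + 2 by ring]
      exact clos1 K l _ _ _ _ _ _ p₁ p₂ u v hl
  · intro u v huv
    obtain ⟨l, hl⟩ : ∃ l : ℕ, u = v + l := ⟨(u - v).toNat, by omega⟩
    rw [aC l u v hl, bC (l + 1) u (v - 1) (by push_cast; omega),
      show u - v = (l : ℤ) by omega]
    push_cast
    exact clos2 K l _ _ _ _ _ _ p₁ p₂ u v hl

end Pool.Agent.Helper52.Arb
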