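import Pool.Agent.Helper52.Arb.Tri

/-! The Clebsch-Gordan rule -/

namespace Pool.Agent.Helper52.Arb

open Pool.Agent.Helper37.Arb

/-- support in a box -/
def Box (K : ℕ) (Q : ℤ → ℤ → ℝ) : Prop :=
  ∀ p q : ℤ, (p < -((K : ℤ) + 1) ∨ (K : ℤ) + 1 < p ∨ q < -((K : ℤ) + 1) ∨ (K : ℤ) + 1 < q) →
    Q p q = 0

/-- antisymmetry -/
def Anti (Q : ℤ → ℤ → ℝ) : Prop := ∀ p q, Q (q - 1) (p + 1) = - Q p q

theorem Anti.off {Q : ℤ → ℤ → ℝ} (h : Anti Q) (q : ℤ) : Q (q - 1) q = 0 := by
  have := h (q - 1) q
  rw [show q - 1 + 1 = q by ring] at this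
  linarith

theorem sum_half (K : ℕ) (q : ℤ) (hq : q ∈ E K) (G : ℤ → ℝ)
    (hG : ∀ p, (K : ℤ) + 1 < p → G p = 0) :
    ∑ p ∈ E K, (if q ≤ p then G p else 0) = ∑ m ∈ Finset.range (NN K), G (q + m) := by
  simp only [E, Finset.mem_Icc] at hq
  rw [← Finset.sum_filter]
  have h1 : ∑ m ∈ Finset.range (NN K), G (q + m) =
      ∑ m ∈ (Finset.range (NN K)).filter (fun m : ℕ => q + m ≤ (K : ℤ) + 5), G (q + m) := by
    rw [Finset.sum_filter]
    refine Finset.sum_congr rfl fun m _ => ?_
    split_ifs with h
    · rfl
    · exact hG _ (by omega)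
  rw [h1]
  refine Finset.sum_bij' (fun p _ => (p - q).toNat) (fun m _ => q + m) ?_ ?_ ?_ ?_ ?_
  · intro p hp
    simp only [E, Finset.mem_filter, Finset.mem_Icc, Finset.mem_range, NN] at hp ⊢
    omega
  · intro m hm
    simp only [E, Finset.mem_filter, Finset.mem_Icc, Finset.mem_range, NN] at hm ⊢
    omega
  · intro p hp
    simp only [E, Finset.mem_filter, Finset.mem_Icc] at hp
    omega
  · intro m hm
    omega
  · intro p hp
    simp only [E, Finset.mem_filter, Finset.mem_Icc] at hp
    congr 1
    omega

theorem tele (W : ℤ → ℝ) (m L : ℕ) :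
    ∑ k ∈ Finset.range (L + 1), (if k ≤ m then W k - W (k - 1) else 0) =
      W (min L m : ℕ) - W (-1) := by
  induction L with
  | zero => simp
  | succ L ih =>
    rw [Finset.sum_range_succ, ih]
    by_cases h : L + 1 ≤ m
    · rw [if_pos h, min_eq_left h, min_eq_left (by omega)]
      push_cast
      rw [show (L : ℤ) + 1 - 1 = L by ring]
      ring
    · rw [if_neg h, min_eq_right (by omega), min_eq_right (by omega)]
      ring

theorem cg (K l : ℕ) (b : ℤ → ℝ) (Q : ℤ → ℤ → ℝ) (hB : Box K Q) (hA : Anti Q) (u v : ℤ)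
    (huv : u = v + l) :
    (S K fun p q => b (u - p) * b (v - q) * Q p q) =
      TS K (l + 1) (fun q n k => bt b (u - q - k) (v - q - n) * Q (q + k + n) q) := by
  -- folding
  have h1 : (S K fun p q => b (u - p) * b (v - q) * Q p q) =
      S K fun p q => if q ≤ p then
        (b (u - p) * b (v - q) - b (u - q + 1) * b (v - p - 1)) * Q p q else 0 := by
    rw [S_split, S_add]
    have h2 : (S K fun I J => if J < I then b (u - J) * b (v - I) * Q J I else 0) =
        S K fun I J => if J ≤ I then b (u - J + 1) * b (v - I - 1) * Q (J - 1) (I + 1) else 0 := by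
      rw [← S_shift (c := 1) (d := -1) (by norm_num) (by norm_num) (by norm_num) (by norm_num)]
      · refine S_congr fun I J => ?_
        rw [show J + -1 = J - 1 by ring, show u - (J - 1) = u - J + 1 by ring,
          show v - (I + 1) = v - I - 1 by ring]
        rcases lt_trichotomy J (I + 1) with h | h | h
        · rw [if_pos (by omega), if_pos (by omega)]
        · subst h
          rw [show I + 1 - 1 = I by ring]
          have := hA.off (I + 1)
          rw [show I + 1 - 1 = I by ring] at this
          rw [this, if_pos (by omega), if_neg (by omega)]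
          ring
        · rw [if_neg (by omega), if_neg (by omega)]
      · intro J s hs
        simp only
        rw [hB J s (by omega)]
        simp
      · intro I s hs
        simp only
        rw [hB s I (by omega)]
        simp
    rw [h2, ← S_add]
    refine S_congr fun I J => ?_
    by_cases h : J ≤ I
    · simp only [h, if_true]
      rw [hA I J]
      ring
    · simp [h]
  rw [h1, ← S_swap]
  unfold S TS
  refine Finset.sum_congr rfl fun q hq => ?_
  rw [sum_half K q hq (fun p => (b (u - p) * b (v - q) - b (u - q + 1) * b (v - p - 1)) * Q p q)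
    (fun p hp => by rw [hB p q (by omega)]; ring)]
  have hq' : -((K : ℤ) + 5) ≤ q := by
    simp only [E, Finset.mem_Icc] at hq
    exact hq.1
  -- the weights
  have h3 : ∀ m : ℕ, (b (u - (q + m)) * b (v - q) - b (u - q + 1) * b (v - (q + m) - 1)) *
      Q (q + m) q = ∑ k ∈ Finset.range (l + 1), if k ≤ m then
        bt b (u - q - k) (v - q - (m - k)) * Q (q + m) q else 0 := by
    intro m
    have h4 := tele (fun k => b (u - q - k) * b (v - q - (m - k))) m l
    have h5 : b (u - q - (min l m : ℕ)) * b (v - q - (m - (min l m : ℕ))) =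
        b (u - (q + m)) * b (v - q) := by
      rcases le_total l m with h | h
      · rw [min_eq_left h, huv, mul_comm]
        congr 2 <;> ring
      · rw [min_eq_right h]
        congr 2 <;> ring
    rw [h5] at h4
    have h6 : (b (u - (q + m)) * b (v - q) - b (u - q + 1) * b (v - (q + m) - 1)) =
        ∑ k ∈ Finset.range (l + 1), if k ≤ m then bt b (u - q - k) (v - q - (m - k)) else 0 := by
      rw [show u - q + 1 = u - q - (-1) by ring, show v - (q + (m : ℤ)) - 1 =
        v - q - (m - (-1)) by ring, ← h4]
      refine Finset.sum_congr rfl fun k _ => ?_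
      split_ifs
      · unfold bt
        congr 2
        · congr 1; ring
        · congr 1; ring
      · rfl
    rw [h6, Finset.sum_mul]
    refine Finset.sum_congr rfl fun k _ => ?_
    split_ifs
    · rfl
    · ring
  simp only [h3]
  rw [Finset.sum_comm, Finset.sum_comm (s := Finset.range (NN K))]
  refine Finset.sum_congr rfl fun k _ => ?_
  rw [← Finset.sum_filter]
  have h7 : ∑ n ∈ Finset.range (NN K), bt b (u - q - k) (v - q - n) * Q (q + k + n) q =
      ∑ n ∈ (Finset.range (NN K)).filter (fun n : ℕ => n + k < NN K),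
        bt b (u - q - k) (v - q - n) * Q (q + k + n) q := by
    rw [Finset.sum_filter]
    refine Finset.sum_congr rfl fun n _ => ?_
    split_ifs with h
    · rfl
    · rw [hB (q + k + n) q (by simp only [NN] at h; omega)]
      ring
  rw [h7]
  refine Finset.sum_bij' (fun m _ => m - k) (fun n _ => n + k) ?_ ?_ ?_ ?_ ?_
  · intro m hm
    simp only [Finset.mem_filter, Finset.mem_range] at hm ⊢
    omega
  · intro n hn
    simp only [Finset.mem_filter, Finset.mem_range] at hn ⊢
    omega
  · intro m hm
    simp only [Finset.mem_filter, Finset.mem_range] at hm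
    omega
  · intro n hn
    omega
  · intro m hm
    simp only [Finset.mem_filter, Finset.mem_range] at hm
    rw [show ((m - k : ℕ) : ℤ) = (m : ℤ) - k by omega,
      show q + (k : ℤ) + ((m : ℤ) - k) = q + m by ring]

end Pool.Agent.Helper52.Arb
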