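import Pool.Agent.Helper52.Arb.CG

/-! Two parallel tangles side by side: the two identities -/

namespace Pool.Agent.Helper52.Arb

open Pool.Agent.Helper37.Arb

/-- positivity of the data of a tangle -/
structure Pos (K : ℕ) (B C D : ℤ → ℤ → ℝ) : Prop where
  bB : Box K B
  bC : Box K C
  bD : Box K D
  pB : ∀ u v, v ≤ u → 0 ≤ B u v
  pC : ∀ u v, v ≤ u → 0 ≤ C u v
  pD : ∀ u v, v ≤ u → 0 ≤ D u v
  pX : ∀ u v, v ≤ u → 0 ≤ C u v + D (u - 1) v - B (u - 1) v
  pY : ∀ u v, v ≤ u → 0 ≤ C u v - B u v + D u (v - 1)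

theorem clos1 (K l : ℕ) (B₁ C₁ D₁ B₂ C₂ D₂ : ℤ → ℤ → ℝ) (h₁ : Pos K B₁ C₁ D₁)
    (h₂ : Pos K B₂ C₂ D₂) (u v : ℤ) (huv : u = v + l + 1) :
    0 ≤ ((l : ℝ) + 1) * TS K (l + 1 + 1) (fun q n k =>
        C₁ (u - q - k) (v - q - n) * B₂ (q + k + n) q +
        B₁ (u - q - k) (v - q - n) * C₂ (q + k + n) q -
        B₁ (u - q - k) (v - q - n) * B₂ (q + k + n) q) +
      ((l : ℝ) + 2) * TS K (l + 1) (fun q n k =>
        D₁ (u - 1 - q - k) (v - q - n) * B₂ (q + k + n) q +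
        B₁ (u - 1 - q - k) (v - q - n) * D₂ (q + k + n) q -
        B₁ (u - 1 - q - k) (v - q - n) * B₂ (q + k + n) q) := by
  set S1 : ℤ → ℕ → ℕ → ℝ := fun q n k => k * (B₁ (u - q - k) (v - q - n) *
    (D₂ (q + k + n - 1) q - B₂ (q + k + n - 1) q)) with hS1
  set S2 : ℤ → ℕ → ℕ → ℝ := fun q n k => ((l : ℝ) + 1 - k) * (B₁ (u - q - k) (v - q - n) *
    D₂ (q + k + n) (q - 1)) with hS2
  set S3 : ℤ → ℕ → ℕ → ℝ := fun q n k => ((l : ℝ) + 1 - k) * (B₂ (q + k + n) q *
    (D₁ (u - q - k - 1) (v - q - n) - B₁ (u - q - k - 1) (v - q - n))) with hS3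
  set S4 : ℤ → ℕ → ℕ → ℝ := fun q n k => k * (B₂ (q + k + n) q *
    D₁ (u - q - k) (v - q - n - 1)) with hS4
  set Z2 : ℤ → ℕ → ℕ → ℝ := fun q n k => ((l : ℝ) + 1 - k) *
    (B₁ (u - 1 - q - k) (v - q - n) * D₂ (q + k + n) q) with hZ2
  set Z4 : ℤ → ℕ → ℕ → ℝ := fun q n k => ((k : ℝ) + 1) *
    (B₂ (q + k + n) q * D₁ (u - 1 - q - k) (v - q - n)) with hZ4
  have e1 : TS K (l + 1 + 1) S1 = TS K (l + 1) (fun q n k => S1 q n (k + 1)) :=
    TS_bot fun q n => by simp [hS1]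
  have e2 : TS K (l + 1 + 1) S2 = TS K (l + 1) S2 := TS_top fun q n => by simp [hS2]
  have e2' : TS K (l + 1) (fun q n k => S2 (q + 1) n k) = TS K (l + 1) S2 :=
    TS_q (by norm_num) (by norm_num) fun n k s hs => by
      simp only [hS2]
      rw [h₂.bD _ (s - 1) (by omega)]
      ring
  have e2'' : TS K (l + 1) (fun q n k => S2 (q + 1) n k) =
      TS K (l + 1) (fun q n k => Z2 q (n + 1) k) := by
    refine TS_congr fun q n k _ => ?_
    simp only [hS2, hZ2]
    rw [show u - (q + 1) - (k : ℤ) = u - 1 - q - k by ring,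
      show v - (q + 1) - (n : ℤ) = v - q - ((n + 1 : ℕ) : ℤ) by push_cast; ring,
      show q + 1 + (k : ℤ) + n = q + k + ((n + 1 : ℕ) : ℤ) by push_cast; ring,
      show q + 1 - 1 = q by ring]
  have e2n := TS_n (K := K) (l := l + 1) (φ := Z2) fun q k hq => by
    simp only [hZ2]
    rw [h₂.bD _ q (by simp only [NN]; push_cast; omega)]
    simp
  have e3 : TS K (l + 1 + 1) S3 = TS K (l + 1) S3 := TS_top fun q n => by simp [hS3]
  have e4 : TS K (l + 1 + 1) S4 = TS K (l + 1) (fun q n k => S4 q n (k + 1)) :=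
    TS_bot fun q n => by simp [hS4]
  have e4'' : TS K (l + 1) (fun q n k => S4 q n (k + 1)) =
      TS K (l + 1) (fun q n k => Z4 q (n + 1) k) := by
    refine TS_congr fun q n k _ => ?_
    simp only [hS4, hZ4]
    rw [show u - q - ((k + 1 : ℕ) : ℤ) = u - 1 - q - k by push_cast; ring,
      show q + ((k + 1 : ℕ) : ℤ) + n = q + k + ((n + 1 : ℕ) : ℤ) by push_cast; ring,
      show v - q - (n : ℤ) - 1 = v - q - ((n + 1 : ℕ) : ℤ) by push_cast; ring]
    push_cast
    ring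
  have e4n := TS_n (K := K) (l := l + 1) (φ := Z4) fun q k hq => by
    simp only [hZ4]
    rw [h₂.bB _ q (by simp only [NN]; push_cast; omega)]
    simp
  have eR : TS K (l + 1 + 1) (fun q n k =>
      B₁ (u - q - k) (v - q - n) *
        (k * (C₂ (q + k + n) q + D₂ (q + k + n - 1) q - B₂ (q + k + n - 1) q) +
        ((l : ℝ) + 1 - k) * (C₂ (q + k + n) q - B₂ (q + k + n) q + D₂ (q + k + n) (q - 1))) +
      B₂ (q + k + n) q *
        (((l : ℝ) + 1 - k) * (C₁ (u - q - k) (v - q - n) + D₁ (u - q - k - 1) (v - q - n) -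
          B₁ (u - q - k - 1) (v - q - n)) +
        k * (C₁ (u - q - k) (v - q - n) - B₁ (u - q - k) (v - q - n) +
          D₁ (u - q - k) (v - q - n - 1)))) =
      ((l : ℝ) + 1) * TS K (l + 1 + 1) (fun q n k =>
        C₁ (u - q - k) (v - q - n) * B₂ (q + k + n) q +
        B₁ (u - q - k) (v - q - n) * C₂ (q + k + n) q -
        B₁ (u - q - k) (v - q - n) * B₂ (q + k + n) q) +
      (TS K (l + 1 + 1) S1 + TS K (l + 1 + 1) S2 + TS K (l + 1 + 1) S3 +
        TS K (l + 1 + 1) S4) := by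
    rw [← TS_mul, ← TS_add, ← TS_add, ← TS_add, ← TS_add]
    refine TS_congr fun q n k _ => ?_
    simp only [hS1, hS2, hS3, hS4]
    ring
  have eL : TS K (l + 1) (fun q n k => S1 q n (k + 1)) + TS K (l + 1) Z2 + TS K (l + 1) S3 +
      TS K (l + 1) Z4 = ((l : ℝ) + 2) * TS K (l + 1) (fun q n k =>
        D₁ (u - 1 - q - k) (v - q - n) * B₂ (q + k + n) q +
        B₁ (u - 1 - q - k) (v - q - n) * D₂ (q + k + n) q -
        B₁ (u - 1 - q - k) (v - q - n) * B₂ (q + k + n) q) := by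
    rw [← TS_mul, ← TS_add, ← TS_add, ← TS_add]
    refine TS_congr fun q n k _ => ?_
    simp only [hS1, hS3, hZ2, hZ4]
    rw [show u - q - ((k + 1 : ℕ) : ℤ) = u - 1 - q - k by push_cast; ring,
      show q + ((k + 1 : ℕ) : ℤ) + n - 1 = q + k + n by push_cast; ring,
      show u - q - (k : ℤ) - 1 = u - 1 - q - k by ring]
    push_cast
    ring
  have p0 : 0 ≤ TS K (l + 1) (fun q n k => if n = 0 then Z2 q 0 k else 0) := by
    refine TS_nonneg fun q n k hk => ?_
    split_ifs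
    · simp only [hZ2]
      have h8 : (0 : ℝ) ≤ (l : ℝ) + 1 - k := by
        have : (k : ℝ) ≤ l + 1 := by exact_mod_cast (by omega : k ≤ l + 1)
        linarith
      exact mul_nonneg h8 (mul_nonneg (h₁.pB _ _ (by push_cast; omega))
        (h₂.pD _ _ (by push_cast; omega)))
    · exact le_rfl
  have p0' : 0 ≤ TS K (l + 1) (fun q n k => if n = 0 then Z4 q 0 k else 0) := by
    refine TS_nonneg fun q n k hk => ?_
    split_ifs
    · simp only [hZ4]
      exact mul_nonneg (by positivity) (mul_nonneg (h₂.pB _ _ (by push_cast; omega))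
        (h₁.pD _ _ (by push_cast; omega)))
    · exact le_rfl
  have pR : 0 ≤ TS K (l + 1 + 1) (fun q n k =>
      B₁ (u - q - k) (v - q - n) *
        (k * (C₂ (q + k + n) q + D₂ (q + k + n - 1) q - B₂ (q + k + n - 1) q) +
        ((l : ℝ) + 1 - k) * (C₂ (q + k + n) q - B₂ (q + k + n) q + D₂ (q + k + n) (q - 1))) +
      B₂ (q + k + n) q *
        (((l : ℝ) + 1 - k) * (C₁ (u - q - k) (v - q - n) + D₁ (u - q - k - 1) (v - q - n) -
          B₁ (u - q - k - 1) (v - q - n)) +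
        k * (C₁ (u - q - k) (v - q - n) - B₁ (u - q - k) (v - q - n) +
          D₁ (u - q - k) (v - q - n - 1)))) := by
    refine TS_nonneg fun q n k hk => ?_
    have h8 : (0 : ℝ) ≤ (l : ℝ) + 1 - k := by
      have : (k : ℝ) ≤ l + 1 := by exact_mod_cast (by omega : k ≤ l + 1)
      linarith
    have h9 : (0 : ℝ) ≤ k := by positivity
    have i1 : q ≤ q + (k : ℤ) + n := by omega
    have i2 : v - q - (n : ℤ) ≤ u - q - k := by omega
    exact add_nonneg (mul_nonneg (h₁.pB _ _ i2) (add_nonneg (mul_nonneg h9 (h₂.pX _ _ i1))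
        (mul_nonneg h8 (h₂.pY _ _ i1))))
      (mul_nonneg (h₂.pB _ _ i1) (add_nonneg (mul_nonneg h8 (h₁.pX _ _ i2))
        (mul_nonneg h9 (h₁.pY _ _ i2))))
  linarith

theorem clos2 (K l : ℕ) (B₁ C₁ D₁ B₂ C₂ D₂ : ℤ → ℤ → ℝ) (h₁ : Pos K B₁ C₁ D₁)
    (h₂ : Pos K B₂ C₂ D₂) (u v : ℤ) (huv : u = v + l) :
    0 ≤ ((l : ℝ) + 2) * TS K (l + 1) (fun q n k =>
        C₁ (u - q - k) (v - q - n) * B₂ (q + k + n) q +
        B₁ (u - q - k) (v - q - n) * C₂ (q + k + n) q -
        B₁ (u - q - k) (v - q - n) * B₂ (q + k + n) q) +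
      ((l : ℝ) + 1) * TS K (l + 1 + 1) (fun q n k =>
        D₁ (u - q - k) (v - 1 - q - n) * B₂ (q + k + n) q +
        B₁ (u - q - k) (v - 1 - q - n) * D₂ (q + k + n) q -
        B₁ (u - q - k) (v - 1 - q - n) * B₂ (q + k + n) q) := by
  set T1 : ℤ → ℕ → ℕ → ℝ := fun q n k => ((l : ℝ) + 1 - k) * (B₁ (u - q - k) (v - q - n) *
    (D₂ (q + k + n - 1) q - B₂ (q + k + n - 1) q)) with hT1
  set T2 : ℤ → ℕ → ℕ → ℝ := fun q n k => ((k : ℝ) + 1) * (B₁ (u - q - k) (v - q - n) *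
    D₂ (q + k + n) (q - 1)) with hT2
  set T3 : ℤ → ℕ → ℕ → ℝ := fun q n k => ((k : ℝ) + 1) * (B₂ (q + k + n) q *
    (D₁ (u - q - k - 1) (v - q - n) - B₁ (u - q - k - 1) (v - q - n))) with hT3
  set T4 : ℤ → ℕ → ℕ → ℝ := fun q n k => ((l : ℝ) + 1 - k) * (B₂ (q + k + n) q *
    D₁ (u - q - k) (v - 1 - q - n)) with hT4
  set V1 : ℤ → ℕ → ℕ → ℝ := fun q n k => ((l : ℝ) + 1 - k) *
    (B₁ (u - q - k) (v - 1 - q - n) * (D₂ (q + k + n) q - B₂ (q + k + n) q)) with hV1
  set V2 : ℤ → ℕ → ℕ → ℝ := fun q n k => (k : ℝ) *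
    (B₁ (u - q - k) (v - 1 - q - n) * D₂ (q + k + n) q) with hV2
  set V3 : ℤ → ℕ → ℕ → ℝ := fun q n k => (k : ℝ) *
    (B₂ (q + k + n) q * (D₁ (u - q - k) (v - 1 - q - n) - B₁ (u - q - k) (v - 1 - q - n)))
    with hV3
  have e1n := TS_n (K := K) (l := l + 1) (φ := T1) fun q k hq => by
    simp only [hT1]
    rw [h₂.bD _ q (by simp only [NN]; push_cast; omega),
      h₂.bB _ q (by simp only [NN]; push_cast; omega)]
    simp
  have e1' : TS K (l + 1) (fun q n k => T1 q (n + 1) k) = TS K (l + 1) V1 := by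
    refine TS_congr fun q n k _ => ?_
    simp only [hT1, hV1]
    rw [show v - q - ((n + 1 : ℕ) : ℤ) = v - 1 - q - n by push_cast; ring,
      show q + (k : ℤ) + ((n + 1 : ℕ) : ℤ) - 1 = q + k + n by push_cast; ring]
  have e1t : TS K (l + 1 + 1) V1 = TS K (l + 1) V1 := TS_top fun q n => by simp [hV1]
  have e2' : TS K (l + 1) (fun q n k => T2 (q + 1) n k) = TS K (l + 1) T2 :=
    TS_q (by norm_num) (by norm_num) fun n k s hs => by
      simp only [hT2]
      rw [h₂.bD _ (s - 1) (by omega)]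
      ring
  have e2'' : TS K (l + 1) (fun q n k => T2 (q + 1) n k) =
      TS K (l + 1) (fun q n k => V2 q n (k + 1)) := by
    refine TS_congr fun q n k _ => ?_
    simp only [hT2, hV2]
    rw [show u - (q + 1) - (k : ℤ) = u - q - ((k + 1 : ℕ) : ℤ) by push_cast; ring,
      show v - (q + 1) - (n : ℤ) = v - 1 - q - n by ring,
      show q + 1 + (k : ℤ) + n = q + ((k + 1 : ℕ) : ℤ) + n by push_cast; ring,
      show q + 1 - 1 = q by ring]
    push_cast
    ring
  have e2t : TS K (l + 1 + 1) V2 = TS K (l + 1) (fun q n k => V2 q n (k + 1)) :=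
    TS_bot fun q n => by simp [hV2]
  have e3n := TS_n (K := K) (l := l + 1) (φ := T3) fun q k hq => by
    simp only [hT3]
    rw [h₂.bB _ q (by simp only [NN]; push_cast; omega)]
    simp
  have e3' : TS K (l + 1) (fun q n k => T3 q (n + 1) k) =
      TS K (l + 1) (fun q n k => V3 q n (k + 1)) := by
    refine TS_congr fun q n k _ => ?_
    simp only [hT3, hV3]
    rw [show v - q - ((n + 1 : ℕ) : ℤ) = v - 1 - q - n by push_cast; ring,
      show q + (k : ℤ) + ((n + 1 : ℕ) : ℤ) = q + ((k + 1 : ℕ) : ℤ) + n by push_cast; ring,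
      show u - q - (k : ℤ) - 1 = u - q - ((k + 1 : ℕ) : ℤ) by push_cast; ring]
    push_cast
    ring
  have e3t : TS K (l + 1 + 1) V3 = TS K (l + 1) (fun q n k => V3 q n (k + 1)) :=
    TS_bot fun q n => by simp [hV3]
  have e4t : TS K (l + 1 + 1) T4 = TS K (l + 1) T4 := TS_top fun q n => by simp [hT4]
  have eR : TS K (l + 1) (fun q n k =>
      B₁ (u - q - k) (v - q - n) *
        (((l : ℝ) + 1 - k) * (C₂ (q + k + n) q +
          (if n = 0 then 0 else D₂ (q + k + n - 1) q - B₂ (q + k + n - 1) q)) +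
        ((k : ℝ) + 1) * (C₂ (q + k + n) q - B₂ (q + k + n) q + D₂ (q + k + n) (q - 1))) +
      B₂ (q + k + n) q *
        (((k : ℝ) + 1) * (C₁ (u - q - k) (v - q - n) +
          (if n = 0 then 0 else D₁ (u - q - k - 1) (v - q - n) -
            B₁ (u - q - k - 1) (v - q - n))) +
        ((l : ℝ) + 1 - k) * (C₁ (u - q - k) (v - q - n) - B₁ (u - q - k) (v - q - n) +
          D₁ (u - q - k) (v - q - n - 1)))) =
      ((l : ℝ) + 2) * TS K (l + 1) (fun q n k =>
        C₁ (u - q - k) (v - q - n) * B₂ (q + k + n) q +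
        B₁ (u - q - k) (v - q - n) * C₂ (q + k + n) q -
        B₁ (u - q - k) (v - q - n) * B₂ (q + k + n) q) +
      ((TS K (l + 1) T1 - TS K (l + 1) (fun q n k => if n = 0 then T1 q 0 k else 0)) +
        TS K (l + 1) T2 +
        (TS K (l + 1) T3 - TS K (l + 1) (fun q n k => if n = 0 then T3 q 0 k else 0)) +
        TS K (l + 1) T4) := by
    rw [← TS_mul, ← TS_sub, ← TS_sub, ← TS_add, ← TS_add, ← TS_add, ← TS_add]
    refine TS_congr fun q n k _ => ?_
    simp only [hT1, hT2, hT3, hT4]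
    rw [show v - q - (n : ℤ) - 1 = v - 1 - q - n by ring]
    rcases Nat.eq_zero_or_pos n with rfl | hn
    · simp only [if_true]
      push_cast
      ring
    · have hn' : ¬ n = 0 := by omega
      simp only [hn', if_false]
      ring
  have eL : TS K (l + 1 + 1) V1 + TS K (l + 1 + 1) V2 + TS K (l + 1 + 1) V3 +
      TS K (l + 1 + 1) T4 = ((l : ℝ) + 1) * TS K (l + 1 + 1) (fun q n k =>
        D₁ (u - q - k) (v - 1 - q - n) * B₂ (q + k + n) q +
        B₁ (u - q - k) (v - 1 - q - n) * D₂ (q + k + n) q -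
        B₁ (u - q - k) (v - 1 - q - n) * B₂ (q + k + n) q) := by
    rw [← TS_mul, ← TS_add, ← TS_add, ← TS_add]
    refine TS_congr fun q n k _ => ?_
    simp only [hV1, hV2, hV3, hT4]
    ring
  have pR : 0 ≤ TS K (l + 1) (fun q n k =>
      B₁ (u - q - k) (v - q - n) *
        (((l : ℝ) + 1 - k) * (C₂ (q + k + n) q +
          (if n = 0 then 0 else D₂ (q + k + n - 1) q - B₂ (q + k + n - 1) q)) +
        ((k : ℝ) + 1) * (C₂ (q + k + n) q - B₂ (q + k + n) q + D₂ (q + k + n) (q - 1))) +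
      B₂ (q + k + n) q *
        (((k : ℝ) + 1) * (C₁ (u - q - k) (v - q - n) +
          (if n = 0 then 0 else D₁ (u - q - k - 1) (v - q - n) -
            B₁ (u - q - k - 1) (v - q - n))) +
        ((l : ℝ) + 1 - k) * (C₁ (u - q - k) (v - q - n) - B₁ (u - q - k) (v - q - n) +
          D₁ (u - q - k) (v - q - n - 1)))) := by
    refine TS_nonneg fun q n k hk => ?_
    have h8 : (0 : ℝ) ≤ (l : ℝ) + 1 - k := by
      have : (k : ℝ) ≤ l + 1 := by exact_mod_cast (by omega : k ≤ l + 1)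
      linarith
    have h9 : (0 : ℝ) ≤ (k : ℝ) + 1 := by positivity
    have i1 : q ≤ q + (k : ℤ) + n := by omega
    have i2 : v - q - (n : ℤ) ≤ u - q - k := by omega
    have x2 : 0 ≤ C₂ (q + k + n) q +
        (if n = 0 then 0 else D₂ (q + k + n - 1) q - B₂ (q + k + n - 1) q) := by
      split_ifs
      · rw [add_zero]; exact h₂.pC _ _ i1
      · have := h₂.pX _ _ i1
        linarith
    have x1 : 0 ≤ C₁ (u - q - k) (v - q - n) +
        (if n = 0 then 0 else D₁ (u - q - k - 1) (v - q - n) -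
          B₁ (u - q - k - 1) (v - q - n)) := by
      split_ifs
      · rw [add_zero]; exact h₁.pC _ _ i2
      · have := h₁.pX _ _ i2
        linarith
    exact add_nonneg (mul_nonneg (h₁.pB _ _ i2) (add_nonneg (mul_nonneg h8 x2)
        (mul_nonneg h9 (h₂.pY _ _ i1))))
      (mul_nonneg (h₂.pB _ _ i1) (add_nonneg (mul_nonneg h9 x1)
        (mul_nonneg h8 (h₁.pY _ _ i2))))
  linarith

end Pool.Agent.Helper52.Arb
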