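import Pool.Agent.Helper52.Arb.CG

/-! Multiplication of a pair by a log-concave sequence -/

namespace Pool.Agent.Helper52.Arb

open Pool.Agent.Helper37.Arb

theorem p1_core (K l : ℕ) (w : ℤ → ℝ) (A B : ℤ → ℤ → ℝ) (hA : Box K A)
    (hA' : Anti A) (hB : Box K B) (hB' : Anti B)
    (hw : ∀ u v, v ≤ u → 0 ≤ bt w u v)
    (h1 : ∀ u v : ℤ, v ≤ u →
      0 ≤ ((u - v : ℤ) : ℝ) * A u v + ((u - v + 1 : ℤ) : ℝ) * B (u - 1) v)
    (h2 : ∀ u v : ℤ, v ≤ u →
      0 ≤ ((u - v + 2 : ℤ) : ℝ) * A u v + ((u - v + 1 : ℤ) : ℝ) * B u (v - 1))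
    (u v : ℤ) (huv : u = v + l + 1) :
    0 ≤ ((l : ℝ) + 1) * (S K fun p q => w (u - p) * w (v - q) * A p q) +
      ((l : ℝ) + 2) * (S K fun p q => w (u - 1 - p) * w (v - q) * B p q) := by
  rw [cg K (l + 1) w A hA hA' u v (by push_cast; omega),
    cg K l w B hB hB' (u - 1) v (by omega)]
  set X : ℤ → ℕ → ℕ → ℝ := fun q n k => bt w (u - q - k) (v - q - n) *
    (k * ((l : ℝ) + 1 + n + 1)) * (B (q + k + n - 1) q / (k + n)) with hX
  set Y : ℤ → ℕ → ℕ → ℝ := fun q n k => bt w (u - q - k) (v - q - n) *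
    (((l : ℝ) + 1 - k) * (n + 1)) * (B (q + k + n) (q - 1) / (k + n + 2)) with hY
  set Z : ℤ → ℕ → ℕ → ℝ := fun q n k => bt w (u - 1 - q - k) (v - q - n) *
    (((l : ℝ) + 1 - k) * n) * (B (q + k + n) q / (k + n + 1)) with hZ
  have hXb : TS K (l + 1 + 1) X = TS K (l + 1) (fun q n k => X q n (k + 1)) :=
    TS_bot fun q n => by simp [hX]
  have hYt : TS K (l + 1 + 1) Y = TS K (l + 1) Y :=
    TS_top fun q n => by simp [hY]
  have hYq : TS K (l + 1) (fun q n k => Y (q + 1) n k) = TS K (l + 1) Y :=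
    TS_q (by norm_num) (by norm_num) fun n k s hs => by
      simp only [hY]
      rw [hB _ (s - 1) (by omega)]
      ring
  have hYZ : TS K (l + 1) (fun q n k => Y (q + 1) n k) =
      TS K (l + 1) (fun q n k => Z q (n + 1) k) := by
    refine TS_congr fun q n k _ => ?_
    simp only [hY, hZ]
    rw [show u - (q + 1) - (k : ℤ) = u - 1 - q - k by ring,
      show v - (q + 1) - (n : ℤ) = v - q - ((n + 1 : ℕ) : ℤ) by push_cast; ring,
      show q + 1 + (k : ℤ) + n = q + k + ((n + 1 : ℕ) : ℤ) by push_cast; ring,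
      show q + 1 - 1 = q by ring]
    push_cast
    rw [show (k : ℝ) + n + 2 = k + (n + 1) + 1 by ring]
  have hZn : TS K (l + 1) (fun q n k => Z q (n + 1) k) = TS K (l + 1) Z := by
    rw [TS_n]
    · have : TS K (l + 1) (fun q n k => if n = 0 then Z q 0 k else 0) = 0 := by
        have : TS K (l + 1) (fun q n k => if n = 0 then Z q 0 k else 0) =
            TS K (l + 1) (fun _ _ _ => 0) := TS_congr fun q n k _ => by simp [hZ]
        rw [this]
        simp [TS]
      rw [this, sub_zero]
    · intro q k hq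
      simp only [hZ]
      rw [hB _ q (by simp only [NN]; push_cast; omega)]
      simp
  have key : ((l : ℝ) + 1) * TS K (l + 1 + 1)
        (fun q n k => bt w (u - q - k) (v - q - n) * A (q + k + n) q) +
      ((l : ℝ) + 2) * TS K (l + 1)
        (fun q n k => bt w (u - 1 - q - k) (v - q - n) * B (q + k + n) q) =
      TS K (l + 1 + 1) fun q n k => bt w (u - q - k) (v - q - n) *
        ((k * ((l : ℝ) + 1 + n + 1)) * (A (q + k + n) q / (k + n + 1) +
          B (q + k + n - 1) q / (k + n)) +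
        (((l : ℝ) + 1 - k) * (n + 1)) * (A (q + k + n) q / (k + n + 1) +
          B (q + k + n) (q - 1) / (k + n + 2))) := by
    have e1 : (TS K (l + 1 + 1) fun q n k => bt w (u - q - k) (v - q - n) *
        ((k * ((l : ℝ) + 1 + n + 1)) * (A (q + k + n) q / (k + n + 1) +
          B (q + k + n - 1) q / (k + n)) +
        (((l : ℝ) + 1 - k) * (n + 1)) * (A (q + k + n) q / (k + n + 1) +
          B (q + k + n) (q - 1) / (k + n + 2)))) =
        TS K (l + 1 + 1) fun q n k => ((l : ℝ) + 1) *
          (bt w (u - q - k) (v - q - n) * A (q + k + n) q) + (X q n k + Y q n k) := by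
      refine TS_congr fun q n k _ => ?_
      simp only [hX, hY]
      have h0 : (k : ℝ) + n + 1 ≠ 0 := by positivity
      have e2 : (k * ((l : ℝ) + 1 + n + 1)) * (A (q + k + n) q / (k + n + 1)) +
          (((l : ℝ) + 1 - k) * (n + 1)) * (A (q + k + n) q / (k + n + 1)) =
          ((l : ℝ) + 1) * A (q + k + n) q := by
        field_simp
        ring
      have e3 : ((l : ℝ) + 1) * (bt w (u - q - k) (v - q - n) * A (q + k + n) q) =
          bt w (u - q - k) (v - q - n) * (((l : ℝ) + 1) * A (q + k + n) q) := by ring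
      rw [e3, ← e2]
      ring
    rw [e1, TS_add, TS_mul, TS_add, hXb, hYt, ← hYq, hYZ, hZn, ← TS_add, ← TS_mul ((l : ℝ) + 2)]
    congr 1
    refine TS_congr fun q n k _ => ?_
    simp only [hX, hZ]
    rw [show u - q - ((k + 1 : ℕ) : ℤ) = u - 1 - q - k by push_cast; ring,
      show q + ((k + 1 : ℕ) : ℤ) + n - 1 = q + k + n by push_cast; ring]
    push_cast
    have h0 : (k : ℝ) + n + 1 ≠ 0 := by positivity
    have h0' : (k : ℝ) + 1 + n ≠ 0 := by positivity
    rw [show (k : ℝ) + 1 + n = k + n + 1 by ring]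
    field_simp
    ring
  rw [key]
  refine TS_nonneg fun q n k hk => ?_
  have b0 : 0 ≤ bt w (u - q - k) (v - q - n) := hw _ _ (by omega)
  refine mul_nonneg b0 (add_nonneg ?_ ?_)
  · rcases Nat.eq_zero_or_pos k with rfl | hk0
    · simp
    · refine mul_nonneg (by positivity) ?_
      have h3 := h1 (q + k + n) q (by omega)
      rw [show q + (k : ℤ) + n - q = k + n by ring] at h3
      push_cast at h3
      have h4 : (0 : ℝ) < k + n := by positivity
      have h5 : (0 : ℝ) < k + n + 1 := by positivity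
      have h6 : A (q + k + n) q / (k + n + 1) + B (q + k + n - 1) q / (k + n) =
          ((k + n) * A (q + k + n) q + (k + n + 1) * B (q + k + n - 1) q) /
            ((k + n) * (k + n + 1)) := by
        field_simp
      rw [h6]
      positivity
  · have h3 := h2 (q + k + n) q (by omega)
    rw [show q + (k : ℤ) + n - q = k + n by ring] at h3
    push_cast at h3
    have h5 : (0 : ℝ) < k + n + 1 := by positivity
    have h7 : (0 : ℝ) < k + n + 2 := by positivity
    have h6 : A (q + k + n) q / (k + n + 1) + B (q + k + n) (q - 1) / (k + n + 2) =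
        ((k + n + 2) * A (q + k + n) q + (k + n + 1) * B (q + k + n) (q - 1)) /
          ((k + n + 1) * (k + n + 2)) := by
      field_simp
    have h8 : (0 : ℝ) ≤ (l : ℝ) + 1 - k := by
      have : (k : ℝ) ≤ l + 1 := by exact_mod_cast (by omega : k ≤ l + 1)
      linarith
    rw [h6]
    positivity

end Pool.Agent.Helper52.Arb
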