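import Pool.Agent.Helper37.Arb.GoodDef
import Pool.Agent.Helper37.Arb.Prod

/-!
Sums over Clebsch-Gordan triangles. A triple `(q, n, k)` with `0 ≤ n`, `0 ≤ k ≤ l` stands for the
partitions `σ = (q + k + n, q)`, `ρ = (u - q - k, v - q - n)` with `|ρ| + |σ| = u + v`,
`l = u - v`.
-/

namespace Pool.Agent.Helper52.Arb

open Pool.Agent.Helper37.Arb

/-- minors of one sequence -/
def bt (b : ℤ → ℝ) (u v : ℤ) : ℝ := b u * b v - b (u + 1) * b (v - 1)

/-- number of values of `n` -/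
def NN (K : ℕ) : ℕ := 2 * K + 20

/-- sums over triangles; `k` runs over `0, .., l - 1` -/
noncomputable def TS (K : ℕ) (l : ℕ) (φ : ℤ → ℕ → ℕ → ℝ) : ℝ :=
  ∑ q ∈ E K, ∑ n ∈ Finset.range (NN K), ∑ k ∈ Finset.range l, φ q n k

variable {K l : ℕ}

theorem TS_congr {φ ψ : ℤ → ℕ → ℕ → ℝ} (h : ∀ q n k, k < l → φ q n k = ψ q n k) :
    TS K l φ = TS K l ψ :=
  Finset.sum_congr rfl fun _ _ => Finset.sum_congr rfl fun _ _ =>
    Finset.sum_congr rfl fun _ hk => h _ _ _ (Finset.mem_range.mp hk)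

theorem TS_add (φ ψ : ℤ → ℕ → ℕ → ℝ) :
    TS K l (fun q n k => φ q n k + ψ q n k) = TS K l φ + TS K l ψ := by
  simp only [TS, Finset.sum_add_distrib]

theorem TS_sub (φ ψ : ℤ → ℕ → ℕ → ℝ) :
    TS K l (fun q n k => φ q n k - ψ q n k) = TS K l φ - TS K l ψ := by
  simp only [TS, Finset.sum_sub_distrib]

theorem TS_mul (c : ℝ) (φ : ℤ → ℕ → ℕ → ℝ) :
    TS K l (fun q n k => c * φ q n k) = c * TS K l φ := by
  simp only [TS, Finset.mul_sum]

theorem TS_nonneg {φ : ℤ → ℕ → ℕ → ℝ} (h : ∀ q n k, k < l → 0 ≤ φ q n k) : 0 ≤ TS K l φ :=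
  Finset.sum_nonneg fun _ _ => Finset.sum_nonneg fun _ _ =>
    Finset.sum_nonneg fun _ hk => h _ _ _ (Finset.mem_range.mp hk)

/-- drop a vanishing bottom term in `k` and shift -/
theorem TS_bot {φ : ℤ → ℕ → ℕ → ℝ} (h : ∀ q n, φ q n 0 = 0) :
    TS K (l + 1) φ = TS K l (fun q n k => φ q n (k + 1)) := by
  unfold TS
  refine Finset.sum_congr rfl fun q _ => Finset.sum_congr rfl fun n _ => ?_
  rw [Finset.sum_range_succ', h, add_zero]

/-- drop a vanishing top term in `k` -/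
theorem TS_top {φ : ℤ → ℕ → ℕ → ℝ} (h : ∀ q n, φ q n l = 0) :
    TS K (l + 1) φ = TS K l φ := by
  unfold TS
  refine Finset.sum_congr rfl fun q _ => Finset.sum_congr rfl fun n _ => ?_
  rw [Finset.sum_range_succ, h, add_zero]

/-- shift in `q` -/
theorem TS_q {φ : ℤ → ℕ → ℕ → ℝ} {c : ℤ} (hc : -1 ≤ c) (hc' : c ≤ 1)
    (h : ∀ n k, VB ((K : ℤ) + 3) fun q => φ q n k) :
    TS K l (fun q n k => φ (q + c) n k) = TS K l φ := by
  unfold TS
  rw [sum_shift (f := fun q => ∑ n ∈ Finset.range (NN K), ∑ k ∈ Finset.range l, φ q n k) hc hc']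
  intro s hs
  exact Finset.sum_eq_zero fun n _ => Finset.sum_eq_zero fun k _ => h n k s hs

/-- shift in `n`: the sum over `n ≥ 1` -/
theorem TS_n {φ : ℤ → ℕ → ℕ → ℝ} (h : ∀ q k, -((K : ℤ) + 5) ≤ q → φ q (NN K) k = 0) :
    TS K l (fun q n k => φ q (n + 1) k) =
      TS K l φ - TS K l (fun q n k => if n = 0 then φ q 0 k else 0) := by
  unfold TS
  rw [← Finset.sum_sub_distrib]
  refine Finset.sum_congr rfl fun q hq => ?_
  have hq' : -((K : ℤ) + 5) ≤ q := by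
    simp only [E, Finset.mem_Icc] at hq
    exact hq.1
  have h1 : ∑ n ∈ Finset.range (NN K), ∑ k ∈ Finset.range l, φ q (n + 1) k +
      ∑ k ∈ Finset.range l, φ q 0 k = ∑ n ∈ Finset.range (NN K), ∑ k ∈ Finset.range l, φ q n k +
      ∑ k ∈ Finset.range l, φ q (NN K) k := by
    rw [← Finset.sum_range_succ' (fun n => ∑ k ∈ Finset.range l, φ q n k), Finset.sum_range_succ]
  have h2 : ∑ k ∈ Finset.range l, φ q (NN K) k = 0 :=
    Finset.sum_eq_zero fun k _ => h q k hq'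
  have h3 : ∑ n ∈ Finset.range (NN K), ∑ k ∈ Finset.range l,
      (if n = 0 then φ q 0 k else 0) = ∑ k ∈ Finset.range l, φ q 0 k := by
    rw [Finset.sum_eq_single_of_mem 0 (by simp [NN])]
    · simp
    · intro b _ hb
      simp [hb]
  rw [h3]
  linarith

/-- The same sum with `ρ` and `σ` exchanged. -/
theorem TS_mirror {φ : ℤ → ℕ → ℕ → ℝ} {v : ℤ}
    (h : ∀ q n k, (q < -((K : ℤ) + 5) ∨ (K : ℤ) + 5 < q) → φ q n k = 0)
    (h' : ∀ q (n : ℕ) k, (v - q - n < -((K : ℤ) + 5) ∨ (K : ℤ) + 5 < v - q - n) → φ q n k = 0) :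
    TS K (l + 1) (fun q n k => φ (v - q - n) n (l - k)) = TS K (l + 1) φ := by
  unfold TS
  rw [Finset.sum_comm, Finset.sum_comm (s := E (K : ℤ))]
  refine Finset.sum_congr rfl fun n _ => ?_
  have h1 : ∀ q : ℤ, ∑ k ∈ Finset.range (l + 1), φ (v - q - n) n (l - k) =
      ∑ k ∈ Finset.range (l + 1), φ (v - q - n) n k := fun q =>
    Finset.sum_range_reflect (fun k => φ (v - q - n) n k) (l + 1)
  simp only [h1]
  set f : ℤ → ℝ := fun q => ∑ k ∈ Finset.range (l + 1), φ q n k with hf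
  have h2 : ∑ᶠ q : ℤ, f (v - q - n) = ∑ᶠ q : ℤ, f q := by
    rw [← finsum_comp_equiv (Equiv.subLeft (v - n)) (f := f)]
    refine finsum_congr fun q => ?_
    simp only [Equiv.subLeft_apply]
    congr 1
    ring
  have h3 : ∑ᶠ q : ℤ, f q = ∑ q ∈ E K, f q := by
    apply finsum_eq_sum_of_support_subset
    intro q hq
    simp only [E, Finset.coe_Icc, Set.mem_Icc]
    by_contra hc
    apply hq
    exact Finset.sum_eq_zero fun k _ => h q n k (by omega)
  have h4 : ∑ᶠ q : ℤ, f (v - q - n) = ∑ q ∈ E K, f (v - q - n) := by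
    apply finsum_eq_sum_of_support_subset
    intro q hq
    simp only [E, Finset.coe_Icc, Set.mem_Icc]
    by_contra hc
    apply hq
    refine Finset.sum_eq_zero fun k _ => h' (v - q - n) n k ?_
    rw [show v - (v - q - n) - (n : ℤ) = q by ring]
    omega
  show ∑ q ∈ E K, f (v - q - n) = ∑ q ∈ E K, f q
  rw [← h4, h2, h3]

end Pool.Agent.Helper52.Arb
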